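import Pool.Agent.Helper43.AX.St

set_option autoImplicit false

namespace Pool.Agent.Helper42.AX

open Pool.Agent.Helper43.AX Pool.Agent.Helper43.GD
open scoped commutatorElement

private theorem ring_part (p s q : ℕ) (hp : p.Prime) (hq : q = p ^ s) (hp3 : p ≠ 3) (R : Type)
    [CommRing R] (y : R) (h1 : y ^ (q ^ p + 1) = 1) (h2 : (y + 1) ^ (q ^ p + 1) = 1)
    (h3 : y ^ ((q ^ 2) ^ p) = y + (p : R)) (hm : y ^ (q ^ 2) = y + 1) : (1 : R) = 0 := by
  have hq0 : 0 < q := by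
    rw [hq]
    exact pow_pos hp.pos s
  have hN0 : 0 < q ^ p := pow_pos hq0 p
  have e1 : (q ^ 2) ^ p = (q ^ p + 1) * (q ^ p - 1) + 1 := by
    obtain ⟨M, hM⟩ : ∃ M, q ^ p = M + 1 := ⟨q ^ p - 1, by omega⟩
    rw [← pow_mul, mul_comm 2 p, pow_mul, hM]
    simp only [Nat.add_sub_cancel]
    ring
  have e2 : y ^ ((q ^ 2) ^ p) = y := by
    rw [e1, pow_succ, pow_mul, h1, one_pow, one_mul]
  have hp0 : (p : R) = 0 := by
    rw [e2] at h3
    exact left_eq_add.1 h3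
  rcases subsingleton_or_nontrivial R with hR | hR
  · exact Subsingleton.elim _ _
  · have : Fact p.Prime := ⟨hp⟩
    have : CharP R p := (CharP.charP_iff_prime_eq_zero hp).2 hp0
    have e3 : q ^ p = p ^ (s * p) := by
      rw [hq, pow_mul]
    have e4 : (y + 1) ^ (q ^ p) = y ^ (q ^ p) + 1 := by
      rw [e3, add_pow_char_pow, one_pow]
    rw [pow_succ, e4] at h2
    rw [pow_succ] at h1
    have e5 : y ^ (q ^ p) + y + 1 = 0 := by linear_combination h2 - h1
    have e6 : y ^ 2 + y + 1 = 0 := by linear_combination y * e5 - h1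
    have e7 : y ^ 3 = 1 := by linear_combination (y - 1) * e6
    have e8 : q ^ 2 % 3 = 1 := by
      have h3q : ¬ 3 ∣ q := by
        intro h
        rw [hq] at h
        have := Nat.prime_three.dvd_of_dvd_pow h
        exact hp3 ((Nat.prime_dvd_prime_iff_eq Nat.prime_three hp).1 this).symm
      rw [Nat.pow_mod]
      have : q % 3 = 1 ∨ q % 3 = 2 := by omega
      rcases this with h | h <;> rw [h]
    have e9 : y ^ (q ^ 2) = y := by
      have := Nat.div_add_mod (q ^ 2) 3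
      rw [e8] at this
      rw [← this, pow_succ, pow_mul, e7, one_pow, one_mul]
    rw [e9] at hm
    linear_combination -hm

theorem hPF (hVC : Pool.Agent.Helper43.AX.StVC) (hHN : Pool.Agent.Helper43.AX.StHN)
    (hXP : Pool.Agent.Helper43.AX.StXP) : Pool.Agent.Helper43.AX.StPF := by
  intro p s q hp hq hp3 G _ a b t l L _ x E σ hC hcl
  obtain ⟨hn, haH, hbH, -⟩ := hHN p q G a b t l L x E σ hC hcl
  obtain ⟨v1, -, -, -, -⟩ := hVC p q G a b t l L x E σ hC
  have hadd := hC.rd.add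
  have htE := hC.rd.tE
  have hlE := hC.rd.lE
  have hgn := hC.rd.gn
  have hxm := hC.rd.xm
  have hsx := hC.rd.sx
  obtain ⟨H, hH⟩ : ∃ H, H = Hs a b E := ⟨_, rfl⟩
  rw [← hH] at hn haH hbH
  have hE0 : E 0 = 1 := by
    have := hadd 0 0
    rw [add_zero] at this
    exact left_eq_mul.1 this
  have hEneg : ∀ c, E (-c) = (E c)⁻¹ := by
    intro c
    have := hadd (-c) c
    rw [neg_add_cancel, hE0] at this
    exact eq_inv_of_mul_eq_one_left this.symm
  have hEH : ∀ c, E c ∈ H := by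
    intro c
    rw [hH]
    exact Subgroup.subset_closure (Or.inl ⟨c, rfl⟩)
  have hvH : a * b * a ∈ H := H.mul_mem (H.mul_mem haH hbH) haH
  have htE' : ∀ c, t * E c * t⁻¹ = E (((x⁻¹ : Lˣ) : L) * c) := by
    intro c
    have := htE (((x⁻¹ : Lˣ) : L) * c)
    rw [← mul_assoc, Units.mul_inv, one_mul] at this
    rw [← this]
    group
  have hDn : (⁅H, H⁆ : Subgroup G).Normal := Subgroup.commutator_normal H H
  -- the ideal
  have hmul : ∀ y c : L, E c ∈ (⁅H, H⁆ : Subgroup G) → E (y * c) ∈ (⁅H, H⁆ : Subgroup G) := by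
    intro y
    let N : AddSubgroup L :=
      { carrier := {y | ∀ c : L, E c ∈ (⁅H, H⁆ : Subgroup G) → E (y * c) ∈ (⁅H, H⁆ : Subgroup G)}
        add_mem' := by
          intro y z hy hz c hc
          rw [add_mul, hadd]
          exact Subgroup.mul_mem _ (hy c hc) (hz c hc)
        zero_mem' := by
          intro c hc
          rw [zero_mul, hE0]
          exact Subgroup.one_mem _
        neg_mem' := by
          intro y hy c hc
          rw [neg_mul, hEneg]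
          exact Subgroup.inv_mem _ (hy c hc) }
    have h1 : (1 : L) ∈ N := by
      intro c hc
      rwa [one_mul]
    have h2 : ∀ y ∈ N, (x : L) * y ∈ N := by
      intro y hy c hc
      rw [mul_assoc, ← htE]
      have := hDn.conj_mem _ (hy c hc) t⁻¹
      rwa [inv_inv] at this
    exact hgn N h1 h2 y
  let I : Ideal L :=
    { carrier := {c | E c ∈ (⁅H, H⁆ : Subgroup G)}
      add_mem' := by
        intro c d hc hd
        rw [Set.mem_ofPred_eq, hadd]
        exact Subgroup.mul_mem _ hc hd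
      zero_mem' := by
        rw [Set.mem_ofPred_eq, hE0]
        exact Subgroup.one_mem _
      smul_mem' := by
        intro y c hc
        exact hmul y c hc }
  have hI : ∀ c, c ∈ I ↔ E c ∈ (⁅H, H⁆ : Subgroup G) := fun c => Iff.rfl
  have hIσ : ∀ c ∈ I, σ c ∈ I := by
    intro c hc
    rw [hI, ← hlE]
    have := hDn.conj_mem _ ((hI c).1 hc) l⁻¹
    rwa [inv_inv] at this
  -- conjugation by elements of `H` is trivial modulo the commutators
  have hconj : ∀ g ∈ H, ∀ c, (E c)⁻¹ * (g * E c * g⁻¹) ∈ (⁅H, H⁆ : Subgroup G) := by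
    intro g hg c
    have h1 : (E c)⁻¹ * (g * E c * g⁻¹) = ⁅(E c)⁻¹, g⁆ := by
      rw [commutatorElement_def]
      group
    rw [h1]
    exact Subgroup.commutator_mem_commutator (H.inv_mem (hEH c)) hg
  have hF : ∀ c, (E c)⁻¹ * F1 a b E c ∈ (⁅H, H⁆ : Subgroup G) := fun c => hconj _ hvH c
  have hv1 : t⁻¹ * (a * b * a) * t ∈ H := by
    have := hn.conj_mem _ hvH t⁻¹
    rwa [inv_inv] at this
  have hkey : ∀ c, c - ((x⁻¹ ^ (q ^ p) : Lˣ) : L) * (((x⁻¹ : Lˣ) : L) * c) ∈ I := by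
    intro c
    have h1 := hconj _ hv1 c
    have h2 : t⁻¹ * (a * b * a) * t * E c * (t⁻¹ * (a * b * a) * t)⁻¹ =
        F1 a b E (((x⁻¹ ^ (q ^ p) : Lˣ) : L) * (((x⁻¹ : Lˣ) : L) * c)) := by
      rw [← v1, F1, ← htE']
      group
    rw [h2] at h1
    have h3 := hF (((x⁻¹ ^ (q ^ p) : Lˣ) : L) * (((x⁻¹ : Lˣ) : L) * c))
    have h4 := Subgroup.mul_mem _ h1 (Subgroup.inv_mem _ h3)
    have h5 := Subgroup.inv_mem _ h4
    rw [hI, sub_eq_add_neg, hadd, hEneg]
    have h6 : ((E c)⁻¹ * F1 a b E (((x⁻¹ ^ (q ^ p) : Lˣ) : L) * (((x⁻¹ : Lˣ) : L) * c)) *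
        ((E (((x⁻¹ ^ (q ^ p) : Lˣ) : L) * (((x⁻¹ : Lˣ) : L) * c)))⁻¹ *
          F1 a b E (((x⁻¹ ^ (q ^ p) : Lˣ) : L) * (((x⁻¹ : Lˣ) : L) * c)))⁻¹)⁻¹ =
        (E (((x⁻¹ ^ (q ^ p) : Lˣ) : L) * (((x⁻¹ : Lˣ) : L) * c)))⁻¹ * E c := by
      group
    rw [h6] at h5
    have h7 := hDn.conj_mem _ h5 (E (((x⁻¹ ^ (q ^ p) : Lˣ) : L) * (((x⁻¹ : Lˣ) : L) * c)))
    have h8 : E (((x⁻¹ ^ (q ^ p) : Lˣ) : L) * (((x⁻¹ : Lˣ) : L) * c)) *
        ((E (((x⁻¹ ^ (q ^ p) : Lˣ) : L) * (((x⁻¹ : Lˣ) : L) * c)))⁻¹ * E c) *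
        (E (((x⁻¹ ^ (q ^ p) : Lˣ) : L) * (((x⁻¹ : Lˣ) : L) * c)))⁻¹ =
        E c * (E (((x⁻¹ ^ (q ^ p) : Lˣ) : L) * (((x⁻¹ : Lˣ) : L) * c)))⁻¹ := by
      group
    rwa [h8] at h7
  have hx1 : (x : L) ^ (q ^ p + 1) - 1 ∈ I := by
    have h1 := hkey ((x : L) ^ (q ^ p + 1))
    have h2 : ((x⁻¹ ^ (q ^ p) : Lˣ) : L) * (((x⁻¹ : Lˣ) : L) * (x : L) ^ (q ^ p + 1)) = 1 := by
      have h3 : (x⁻¹ ^ (q ^ p)) * (x⁻¹ * x ^ (q ^ p + 1)) = (1 : Lˣ) := by
        rw [pow_succ' x, inv_mul_cancel_left, inv_pow, inv_mul_cancel]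
      have h4 := congrArg (fun u : Lˣ => (u : L)) h3
      simpa using h4
    rwa [h2] at h1
  have hx2 : ((x : L) + 1) ^ (q ^ p + 1) - 1 ∈ I := by
    have := hIσ _ hx1
    rwa [map_sub, map_pow, hsx, map_one] at this
  have hone : (1 : L) ∈ I := by
    have key := ring_part p s q hp hq hp3 (L ⧸ I) (Ideal.Quotient.mk I (x : L)) ?_ ?_ ?_ ?_
    · rw [← Ideal.Quotient.eq_zero_iff_mem, map_one]
      exact key
    · rw [← map_pow, ← map_one (Ideal.Quotient.mk I), Ideal.Quotient.eq]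
      exact hx1
    · rw [← map_one (Ideal.Quotient.mk I), ← map_add, ← map_pow, Ideal.Quotient.eq]
      exact hx2
    · rw [← map_pow, (hXP (q ^ 2) L x σ hxm hsx p).1, map_add, map_natCast]
    · rw [← map_pow, hxm, map_add, map_one]
  have hall : ∀ c, E c ∈ (⁅H, H⁆ : Subgroup G) := by
    intro c
    have := hmul c 1 hone
    rwa [mul_one] at this
  have hle : H ≤ (⁅H, H⁆ : Subgroup G) := by
    conv_lhs => rw [hH]
    unfold Hs
    rw [Subgroup.closure_le]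
    rintro g (⟨c, rfl⟩ | ⟨c, rfl⟩)
    · exact hall c
    · exact hDn.conj_mem _ (hall c) _
  rw [← hH]
  have h9 := Subgroup.map_subtype_commutator H
  rw [eq_top_iff]
  intro g _
  have h10 : (g : G) ∈ (commutator H).map H.subtype := by
    rw [h9]
    exact hle g.2
  obtain ⟨g', hg', he⟩ := h10
  have : g' = g := Subtype.ext he
  rwa [← this]

end Pool.Agent.Helper42.AX
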